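import Pool.Agent.FUR.Stmts

/-!
Squad FUR (MP_a6aa4e_lc), row DEN: density of functions with small sensitivity at their ones.
-/

set_option autoImplicit false

open Finset

namespace Pool.Agent.FUR.H10

open Pool.Agent.FUR

/-- restriction to a half cube -/
def hf {N : ℕ} (h : BF (N + 1)) (b : Bool) : BF N := fun x => h (Fin.cons b x)

theorem card_sn {N : ℕ} (h : BF (N + 1)) (b : Bool) (x : Fin N → Bool) :
    (Sn h (Fin.cons b x)).card =
      if h (Fin.cons (!b) x) ≠ h (Fin.cons b x) then (Sn (hf h b) x).card + 1
      else (Sn (hf h b) x).card := by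
  have e0 : fl (Fin.cons b x : Fin (N + 1) → Bool) 0 = Fin.cons (!b) x := by
    unfold fl
    rw [Fin.cons_zero, Fin.update_cons_zero]
  have es : ∀ v : Fin N, fl (Fin.cons b x : Fin (N + 1) → Bool) v.succ = Fin.cons b (fl x v) := by
    intro v
    unfold fl
    rw [Fin.cons_succ, Fin.cons_update]
  unfold Sn
  rw [Fin.card_filter_univ_succ, e0]
  have e1 : (univ.filter fun v : Fin N =>
      h (fl (Fin.cons b x : Fin (N + 1) → Bool) v.succ) ≠ h (Fin.cons b x)) =
      univ.filter fun v : Fin N => hf h b (fl x v) ≠ hf h b x := by
    refine Finset.filter_congr fun v _ => ?_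
    rw [es]
    exact Iff.rfl
  rw [e1]

theorem card_ones {N : ℕ} (h : BF (N + 1)) :
    (univ.filter fun x : Fin (N + 1) → Bool => h x = true).card =
      (univ.filter fun x : Fin N → Bool => hf h true x = true).card +
        (univ.filter fun x : Fin N → Bool => hf h false x = true).card := by
  rw [Finset.card_filter, Finset.card_filter, Finset.card_filter]
  rw [← Equiv.sum_comp (Fin.consEquiv fun _ : Fin (N + 1) => Bool)
    (fun x => if h x = true then 1 else 0), Fintype.sum_prod_type, Fintype.sum_bool]
  rfl

theorem den : DENStmt := by
  intro N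
  induction N with
  | zero =>
    intro t h ⟨x, hx⟩ _
    have h1 : 1 ≤ (univ.filter fun x : Fin 0 → Bool => h x = true).card :=
      Finset.card_pos.2 ⟨x, by rw [Finset.mem_filter]; exact ⟨Finset.mem_univ _, hx⟩⟩
    have h2 : 1 ≤ 2 ^ t := Nat.one_le_two_pow
    rw [pow_zero]
    exact Nat.mul_le_mul h2 h1
  | succ N ih =>
    intro t h ⟨x, hx⟩ hs
    rw [card_ones]
    have mono : ∀ b x, hf h b x = true → (Sn (hf h b) x).card ≤ t := by
      intro b x hb
      have h1 := hs (Fin.cons b x) hb
      rw [card_sn] at h1
      split_ifs at h1 with h2
      · omega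
      · exact h1
    -- a half without ones
    have half : ∀ b, (∃ x, hf h b x = true) → (∀ x, hf h (!b) x = false) →
        2 ^ (N + 1) ≤ 2 ^ t * (univ.filter fun x : Fin N → Bool => hf h b x = true).card := by
      intro b hb hnb
      have h1 : ∀ x, hf h b x = true → (Sn (hf h b) x).card + 1 ≤ t := by
        intro x hbx
        have h1 := hs (Fin.cons b x) hbx
        rw [card_sn, if_pos] at h1
        · exact h1
        · have h2 : h (Fin.cons (!b) x) = false := hnb x
          have h3 : h (Fin.cons b x) = true := hbx
          rw [h2, h3]
          decide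
      obtain ⟨y, hy⟩ := hb
      obtain ⟨s, hs'⟩ : ∃ s, t = s + 1 := ⟨t - 1, by have := h1 y hy; omega⟩
      have h2 := ih s (hf h b) ⟨y, hy⟩ (fun x hx => by have := h1 x hx; omega)
      rw [hs', pow_succ, pow_succ]
      calc 2 ^ N * 2 ≤ (2 ^ s * (univ.filter fun x : Fin N → Bool => hf h b x = true).card) * 2 :=
            Nat.mul_le_mul_right _ h2
        _ = _ := by ring
    by_cases h1 : ∃ x, hf h true x = true
    · by_cases h0 : ∃ x, hf h false x = true
      · have k1 := ih t (hf h true) h1 (mono true)
        have k0 := ih t (hf h false) h0 (mono false)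
        rw [pow_succ, mul_add]
        omega
      · have k := half true h1 (fun x => by
          by_contra hcon
          exact h0 ⟨x, by
            rw [Bool.not_eq_false] at hcon
            exact hcon⟩)
        rw [mul_add]
        omega
    · have h0 : ∃ x, hf h false x = true := by
        rcases hx0 : x 0 with _ | _
        · refine ⟨fun i => x i.succ, ?_⟩
          show h (Fin.cons false fun i => x i.succ) = true
          have e : (Fin.cons false fun i => x i.succ : Fin (N + 1) → Bool) = x := by
            rw [← hx0]
            exact Fin.cons_self_tail x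
          rw [e]
          exact hx
        · exfalso
          apply h1
          refine ⟨fun i => x i.succ, ?_⟩
          show h (Fin.cons true fun i => x i.succ) = true
          have e : (Fin.cons true fun i => x i.succ : Fin (N + 1) → Bool) = x := by
            rw [← hx0]
            exact Fin.cons_self_tail x
          rw [e]
          exact hx
      have k := half false h0 (fun x => by
        by_contra hcon
        exact h1 ⟨x, by
          rw [Bool.not_eq_false] at hcon
          exact hcon⟩)
      rw [mul_add]
      omega

end Pool.Agent.FUR.H10
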