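import Pool.Agent.FUR.Stmts

/-!
Squad FUR (MP_a6aa4e_lc), row RSM: the sum over both restrictions.
-/

set_option autoImplicit false

open Finset

namespace Pool.Agent.FUR.H10

open Pool.Agent.FUR

theorem fl_fl {N : ℕ} (x : Fin N → Bool) (v : Fin N) : fl (fl x v) v = x := by
  unfold fl
  rw [Function.update_self, Function.update_idem, Bool.not_not, Function.update_eq_self]

theorem sn_rst {N : ℕ} (f : BF N) (v : Fin N) (b : Bool) (x : Fin N → Bool) :
    Sn (rst f v b) x = (Sn f (Function.update x v b)).erase v := by
  ext w
  rw [Finset.mem_erase, Sn, Sn, Finset.mem_filter, Finset.mem_filter]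
  by_cases hw : w = v
  · subst hw
    constructor
    · rintro ⟨_, h⟩
      exfalso
      apply h
      unfold rst fl
      rw [Function.update_idem]
    · rintro ⟨h, _⟩
      exact absurd rfl h
  · have e : Function.update (fl x w) v b = fl (Function.update x v b) w := by
      unfold fl
      rw [Function.update_of_ne hw, Function.update_comm hw]
    unfold rst
    rw [e]
    constructor
    · rintro ⟨h1, h2⟩
      exact ⟨hw, h1, h2⟩
    · rintro ⟨_, h1, h2⟩
      exact ⟨h1, h2⟩

theorem rsm : RSMStmt := by
  intro N q f v
  obtain ⟨g, hg⟩ : ∃ g : (Fin N → Bool) → ℕ, g = fun x => (((Sn f x).erase v).card).choose q :=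
    ⟨_, rfl⟩
  have h1 : ∀ b, Mq q (rst f v b) = ∑ x : Fin N → Bool, g (Function.update x v b) := by
    intro b
    unfold Mq
    refine Finset.sum_congr rfl fun x _ => ?_
    rw [sn_rst, hg]
  have h2 : ∀ x : Fin N → Bool, g (Function.update x v false) + g (Function.update x v true) =
      g x + g (fl x v) := by
    intro x
    cases hx : x v with
    | false =>
      have e1 : Function.update x v false = x := by rw [← hx, Function.update_eq_self]
      have e2 : fl x v = Function.update x v true := by unfold fl; rw [hx]; rfl
      rw [e1, e2]
    | true =>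
      have e1 : Function.update x v true = x := by rw [← hx, Function.update_eq_self]
      have e2 : fl x v = Function.update x v false := by unfold fl; rw [hx]; rfl
      rw [e1, e2, add_comm]
  have h3 : ∑ x : Fin N → Bool, g (fl x v) = ∑ x : Fin N → Bool, g x := by
    have hinv : Function.Involutive (fun x : Fin N → Bool => fl x v) := fun x => fl_fl x v
    exact Equiv.sum_comp (hinv.toPerm _) g
  rw [h1, h1, ← Finset.sum_add_distrib, Finset.sum_congr rfl fun x _ => h2 x,
    Finset.sum_add_distrib, h3, two_mul, hg]

end Pool.Agent.FUR.H10
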